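import Pool.Agent.X11.NatExtMain

/-!
# MP_68eddd_an, Q1: a disconnected natural extension domain

The definitions `Sys`, `Sys.Admissible`, `Sys.tmap`, `Sys.step`, `Sys.IsInv` are in
`Pool/Agent/X11/NatExt.lean`.
-/

namespace Pool.Agent.Results.MP_68eddd_an.DisconnectedDomain

open Set MeasureTheory Pool.Agent.X11.NatExt

/-- **Negative answer to Q1.**  There is a system of four increasing Moebius branches on nondegenerate
pieces of `I = [-1, 1]`, with
matrices in `SL(2, ℝ)`, satisfying all standing assumptions of the problem (`Admissible`), and a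
compact set `K ⊆ I × ℝ` which projects onto `I` and equals the closure of
`⋃ T̃_i (K ∩ (I_i × ℝ))`; `K` is the only such set, it has positive Lebesgue measure, the set
`K \ T̃(K)` is a null set, and `K` is not connected. -/
theorem result : ∃ (S : Sys (Fin 4)) (K : Set (ℝ × ℝ)), S.A = -1 ∧ S.B = 1 ∧
    (∀ i, S.lo i < S.hi i) ∧ S.Admissible ∧ S.IsInv K ∧
    (∀ K' : Set (ℝ × ℝ), S.IsInv K' → K' = K) ∧ 0 < volume K ∧ volume (K \ S.step K) = 0 ∧
    ¬ IsConnected K := by
  refine ⟨S, K1 ∪ K2, rfl, rfl, ?_, admissible, inv, fun K' h => S.unique admissible inv h, vol_pos,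
    ?_, fun h => not_preconnected h.isPreconnected⟩
  · intro i
    fin_cases i <;> simp [S] <;> norm_num
  · rw [step_eq, diff_self, measure_empty]

end Pool.Agent.Results.MP_68eddd_an.DisconnectedDomain
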